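import Mathlib

/-!
# The exclusive sum number is bounded in terms of the sum index

If `f` realises the sum index, append to `f v` the indicator vector of the set of sums used by the
edges of `G` at `v`.  An edge with sum `s` then has a `2` in coordinate `s`, a non-edge with sum
`s` has a `0` there, and there are at most `σ * 3 ^ (σ - 1)` vector sums of edges.
-/

set_option autoImplicit false

open Function

namespace Pool.Agent.Results.MP_091b59_co.ExclusiveSumBounded

/-- The set `S(f)` of edge sums of a vertex labelling. -/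
def edgeSums {V : Type} (G : SimpleGraph V) (f : V → ℤ) : Set ℤ :=
  {s | ∃ u v, G.Adj u v ∧ f u + f v = s}

/-- The sum index: the least number of edge sums of an injective integer labelling. -/
noncomputable def sumIndex {V : Type} (G : SimpleGraph V) : ℕ :=
  sInf {k | ∃ f : V → ℤ, Injective f ∧ (edgeSums G f).ncard = k}

/-- `g` is a sum labelling of `H`: injective, positive, and two distinct vertices are adjacent
exactly when the sum of their labels is a label. -/
def IsSumLabelling {W : Type} (H : SimpleGraph W) (g : W → ℤ) : Prop :=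
  Injective g ∧ (∀ w, 0 < g w) ∧ ∀ x y, x ≠ y → (H.Adj x y ↔ ∃ w, g x + g y = g w)

/-- `G` together with `r` new isolated vertices has a sum labelling in which every edge sum of
`G` is the label of one of the new vertices. -/
def HasExclusiveLabelling {V : Type} (G : SimpleGraph V) (r : ℕ) : Prop :=
  ∃ g : V ⊕ Fin r → ℤ, IsSumLabelling (G.sum (⊥ : SimpleGraph (Fin r))) g ∧
    ∀ u v, G.Adj u v → ∃ i : Fin r, g (Sum.inl u) + g (Sum.inl v) = g (Sum.inr i)

/-- The exclusive sum number. -/
noncomputable def exclusiveSumNumber {V : Type} (G : SimpleGraph V) : ℕ :=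
  sInf {r | HasExclusiveLabelling G r}

lemma exists_hom_ne_zero {M : Type} [AddCommGroup M] (D : Finset M)
    (h : ∀ d ∈ D, ∃ φ : M →+ ℤ, φ d ≠ 0) : ∃ φ : M →+ ℤ, ∀ d ∈ D, φ d ≠ 0 := by
  classical
  induction D using Finset.induction_on with
  | empty => exact ⟨0, by simp⟩
  | insert a D _ ih =>
    obtain ⟨φ, hφ⟩ := ih fun d hd => h d (Finset.mem_insert_of_mem hd)
    obtain ⟨ψ, hψ⟩ := h a (Finset.mem_insert_self _ _)
    obtain ⟨N, hN⟩ : ∃ N : ℤ, ∀ d ∈ insert a D, |ψ d| < N := by
      obtain ⟨N, hN⟩ := ((insert a D).image fun d => |ψ d|).bddAbove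
      exact ⟨N + 1, fun d hd => Int.lt_add_one_iff.2
        (hN (Finset.mem_coe.2 (Finset.mem_image_of_mem _ hd)))⟩
    refine ⟨N • φ + ψ, fun d hd h0 => ?_⟩
    simp only [AddMonoidHom.add_apply, AddMonoidHom.smul_apply, smul_eq_mul] at h0
    by_cases hd0 : φ d = 0
    · rw [hd0, mul_zero, zero_add] at h0
      rcases Finset.mem_insert.1 hd with rfl | hd'
      · exact hψ h0
      · exact hφ d hd' hd0
    · have h1 := hN d hd
      have h2 : ψ d = -(N * φ d) := by linarith
      have h3 : 1 ≤ |φ d| := Int.one_le_abs hd0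
      have h4 : 0 < N := (abs_nonneg _).trans_lt h1
      rw [h2, abs_neg, abs_mul, abs_of_pos h4] at h1
      nlinarith

lemma exists_hom_injOn (B : Finset (ℤ × (ℤ → ℤ))) :
    ∃ φ : (ℤ × (ℤ → ℤ)) →+ ℤ, Set.InjOn φ B := by
  classical
  obtain ⟨φ, hφ⟩ := exists_hom_ne_zero (B.offDiag.image fun q => q.1 - q.2) (by
    intro d hd
    obtain ⟨q, hq, rfl⟩ := Finset.mem_image.1 hd
    have hne : q.1 - q.2 ≠ 0 := sub_ne_zero.2 (Finset.mem_offDiag.1 hq).2.2
    generalize q.1 - q.2 = d at hne
    by_cases h1 : d.1 = 0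
    · have h2 : d.2 ≠ 0 := fun h2 => hne (Prod.ext h1 h2)
      obtain ⟨s, hs⟩ := Function.ne_iff.1 h2
      exact ⟨(Pi.evalAddMonoidHom (fun _ => ℤ) s).comp (AddMonoidHom.snd _ _), hs⟩
    · exact ⟨AddMonoidHom.fst _ _, h1⟩)
  refine ⟨φ, fun a ha b hb hab => ?_⟩
  by_contra hne
  refine hφ (a - b) (Finset.mem_image.2 ⟨(a, b), Finset.mem_offDiag.2 ⟨ha, hb, hne⟩, rfl⟩) ?_
  rw [map_sub, hab, sub_self]

/-- An integer labelling whose edge sums are never sums of non-edges gives an exclusive
labelling after a translation. -/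
lemma hasExclusiveLabelling_of {V : Type} [Fintype V] (G : SimpleGraph V) (a : V → ℤ)
    (ha : Injective a) (T : Finset ℤ) (hT : ∀ u v, u ≠ v → (G.Adj u v ↔ a u + a v ∈ T)) :
    HasExclusiveLabelling G T.card := by
  classical
  obtain ⟨B, hB1, hB2⟩ : ∃ B : ℤ, (∀ v, |a v| < B) ∧ ∀ t ∈ T, |t| < B := by
    obtain ⟨N, hN⟩ := ((Finset.univ.image a ∪ T).image fun d => |d|).bddAbove
    have key : ∀ t ∈ Finset.univ.image a ∪ T, |t| < N + 1 := fun t ht =>
      Int.lt_add_one_iff.2 (hN (Finset.mem_coe.2 (Finset.mem_image_of_mem _ ht)))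
    exact ⟨N + 1, fun v => key _ (Finset.mem_union_left _
      (Finset.mem_image_of_mem _ (Finset.mem_univ v))), fun t ht =>
      key _ (Finset.mem_union_right _ ht)⟩
  let e : Fin T.card → ℤ := fun i => (T.equivFin.symm i : ℤ)
  have he : ∀ i, |e i| < B := fun i => hB2 _ (T.equivFin.symm i).2
  have hei : Injective e := Subtype.val_injective.comp T.equivFin.symm.injective
  have hes : ∀ t ∈ T, ∃ i, e i = t := fun t ht => ⟨T.equivFin ⟨t, ht⟩, by simp [e]⟩
  have heT : ∀ i, e i ∈ T := fun i => (T.equivFin.symm i).2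
  simp only [abs_lt] at hB1 he
  refine ⟨Sum.elim (fun v => 3 * B + a v) (fun i => 6 * B + e i), ⟨?_, ?_, ?_⟩, ?_⟩
  · rintro (u | i) (v | j) h <;> simp only [Sum.elim_inl, Sum.elim_inr] at h
    · rw [ha (add_left_cancel h)]
    · linarith [hB1 u, he j]
    · linarith [hB1 v, he i]
    · rw [hei (add_left_cancel h)]
  · rintro (u | i) <;> simp only [Sum.elim_inl, Sum.elim_inr]
    · linarith [hB1 u]
    · linarith [he i]
  · rintro (u | i) (v | j) hne
    · rw [SimpleGraph.sum_adj_inl, hT u v fun h => hne (by rw [h])]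
      constructor
      · intro h
        obtain ⟨i, hi⟩ := hes _ h
        exact ⟨Sum.inr i, by simp only [Sum.elim_inl, Sum.elim_inr]; linarith⟩
      · rintro ⟨w | i, hw⟩ <;> simp only [Sum.elim_inl, Sum.elim_inr] at hw
        · linarith [hB1 u, hB1 v, hB1 w]
        · have : a u + a v = e i := by linarith
          rw [this]
          exact heT i
    · refine iff_of_false (by simp) ?_
      rintro ⟨w | k, hw⟩ <;> simp only [Sum.elim_inl, Sum.elim_inr] at hw
      · linarith [hB1 u, he j, hB1 w]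
      · linarith [hB1 u, he j, he k]
    · refine iff_of_false (by simp) ?_
      rintro ⟨w | k, hw⟩ <;> simp only [Sum.elim_inl, Sum.elim_inr] at hw
      · linarith [hB1 v, he i, hB1 w]
      · linarith [hB1 v, he i, he k]
    · refine iff_of_false (by simp) ?_
      rintro ⟨w | k, hw⟩ <;> simp only [Sum.elim_inl, Sum.elim_inr] at hw
      · linarith [he j, he i, hB1 w]
      · linarith [he j, he i, he k]
  · intro u v h
    obtain ⟨i, hi⟩ := hes _ ((hT u v h.ne).1 h)
    exact ⟨i, by simp only [Sum.elim_inl, Sum.elim_inr]; linarith⟩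

lemma exists_labelling {V : Type} [Fintype V] (G : SimpleGraph V) (f : V → ℤ) (hf : Injective f) :
    ∃ r ≤ (edgeSums G f).ncard * 3 ^ ((edgeSums G f).ncard - 1), HasExclusiveLabelling G r := by
  classical
  let ind : V → ℤ → ℤ := fun v s => if ∃ u, G.Adj v u ∧ f v + f u = s then 1 else 0
  let P : V → ℤ × (ℤ → ℤ) := fun v => (f v, ind v)
  let Ed : Finset (V × V) := Finset.univ.filter fun q => G.Adj q.1 q.2
  let S : Finset ℤ := Ed.image fun q => f q.1 + f q.2
  have hS : edgeSums G f = S := by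
    ext s
    simp [edgeSums, S, Ed]
  let Sig : Finset (ℤ × (ℤ → ℤ)) := Ed.image fun q => P q.1 + P q.2
  have hedge : ∀ u v, G.Adj u v → (P u + P v).2 (f u + f v) = 2 := fun u v h => by
    have h1 : ind u (f u + f v) = 1 := if_pos ⟨v, h, rfl⟩
    have h2 : ind v (f u + f v) = 1 := if_pos ⟨u, h.symm, add_comm _ _⟩
    simp [P, h1, h2]
  have hcard : Sig.card ≤ S.card * 3 ^ (S.card - 1) := by
    let F : (Σ s : ℤ, ∀ a ∈ S.erase s, ℤ) → ℤ × (ℤ → ℤ) := fun x =>
      (x.1, fun a => if h : a ∈ S.erase x.1 then x.2 a h else if a = x.1 then 2 else 0)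
    have hsub : Sig ⊆ (S.sigma fun s => (S.erase s).pi fun _ => ({0, 1, 2} : Finset ℤ)).image F := by
      intro x hx
      obtain ⟨⟨u, v⟩, hq, rfl⟩ := Finset.mem_image.1 hx
      have huv : G.Adj u v := (Finset.mem_filter.1 hq).2
      refine Finset.mem_image.2 ⟨⟨f u + f v, fun a _ => ind u a + ind v a⟩,
        Finset.mem_sigma.2 ⟨Finset.mem_image.2 ⟨(u, v), hq, rfl⟩, Finset.mem_pi.2 fun a _ => ?_⟩,
        Prod.ext rfl (funext fun a => ?_)⟩
      · simp only [ind]
        split_ifs <;> simp
      · simp only [F]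
        split_ifs with h1 h2
        · rfl
        · rw [h2, hedge u v huv]
        · have ha : a ∉ S := fun h => h1 (Finset.mem_erase.2 ⟨h2, h⟩)
          have key : ∀ w, ind w a = 0 := fun w => if_neg (by
            rintro ⟨w', hw, rfl⟩
            exact ha (Finset.mem_image.2 ⟨(w, w'), Finset.mem_filter.2 ⟨Finset.mem_univ _, hw⟩,
              rfl⟩))
          simp [P, key]
    refine (Finset.card_le_card hsub).trans (Finset.card_image_le.trans ?_)
    rw [Finset.card_sigma]
    refine (Finset.sum_le_card_nsmul _ _ (3 ^ (S.card - 1)) fun s hs => ?_).trans (by simp)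
    rw [Finset.card_pi, Finset.prod_const, Finset.card_erase_of_mem hs]
    rfl
  obtain ⟨φ, hφ⟩ := exists_hom_injOn (Finset.univ.image fun q : V × V => P q.1 + P q.2)
  have hφ' : ∀ u v x y, φ (P u) + φ (P v) = φ (P x) + φ (P y) → P u + P v = P x + P y := by
    intro u v x y h
    refine hφ (Finset.mem_coe.2 (Finset.mem_image.2 ⟨(u, v), Finset.mem_univ _, rfl⟩))
      (Finset.mem_coe.2 (Finset.mem_image.2 ⟨(x, y), Finset.mem_univ _, rfl⟩)) ?_
    rw [map_add, map_add, h]
  refine ⟨(Sig.image φ).card, ?_, hasExclusiveLabelling_of G (fun v => φ (P v)) ?_ _ ?_⟩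
  · rw [hS, Set.ncard_coe_finset]
    exact Finset.card_image_le.trans hcard
  · intro u v h
    have h1 := hφ' u u u v (by rw [show φ (P u) = φ (P v) from h])
    exact hf (congrArg Prod.fst (add_left_cancel h1))
  · intro u v _
    constructor
    · intro h
      refine Finset.mem_image.2 ⟨P u + P v, Finset.mem_image.2 ⟨(u, v),
        Finset.mem_filter.2 ⟨Finset.mem_univ _, h⟩, rfl⟩, map_add _ _ _⟩
    · intro h
      obtain ⟨_, hx, hx2⟩ := Finset.mem_image.1 h
      obtain ⟨⟨x, y⟩, hq, rfl⟩ := Finset.mem_image.1 hx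
      have hxy : G.Adj x y := (Finset.mem_filter.1 hq).2
      rw [map_add] at hx2
      have h1 := hφ' _ _ _ _ hx2
      have h2 : f x + f y = f u + f v := congrArg Prod.fst h1
      have h3 := hedge x y hxy
      simp only at h1
      rw [h1, h2] at h3
      have h4 : ind u (f u + f v) + ind v (f u + f v) = 2 := h3
      by_contra hcon
      have h5 : ind u (f u + f v) = 0 := if_neg (by
        rintro ⟨w, hw, hw2⟩
        exact hcon (hf (add_left_cancel hw2) ▸ hw))
      have h6 : ind v (f u + f v) ≤ 1 := by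
        simp only [ind]
        split_ifs <;> norm_num
      omega

/-- Every finite graph with sum index at most `C` has an exclusive sum labelling, and its
exclusive sum number is at most `C * 3 ^ (C - 1)`. -/
theorem result (C : ℕ) (V : Type) [Fintype V] (G : SimpleGraph V) (hG : sumIndex G ≤ C) :
    (∃ r, HasExclusiveLabelling G r) ∧ exclusiveSumNumber G ≤ C * 3 ^ (C - 1) := by
  have hne : {k | ∃ f : V → ℤ, Injective f ∧ (edgeSums G f).ncard = k}.Nonempty := by
    obtain ⟨f, hf⟩ := exists_injective_nat V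
    exact ⟨_, fun v => (f v : ℤ), Nat.cast_injective.comp hf, rfl⟩
  obtain ⟨f, hf, hk⟩ := Nat.sInf_mem hne
  obtain ⟨r, hr, hlab⟩ := exists_labelling G f hf
  refine ⟨⟨r, hlab⟩, (Nat.sInf_le hlab).trans (hr.trans ?_)⟩
  have h : (edgeSums G f).ncard ≤ C := hk.trans_le hG
  exact Nat.mul_le_mul h (Nat.pow_le_pow_right (by norm_num) (Nat.sub_le_sub_right h 1))

end Pool.Agent.Results.MP_091b59_co.ExclusiveSumBounded
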