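import Mathlib
import Pool.Agent.MP_091b59_co.OrdUp
import Pool.Agent.MP_091b59_co.OrdLow

/-!
# Graphs of sum index at most `C` with exclusive sum number of order `C 2 ^ (C / 2)`
-/

open Function

namespace Pool.Agent.Results.MP_091b59_co.ExponentialLower

/-- The set `S(f)` of edge sums of a vertex labelling. -/
def edgeSums {V : Type} (G : SimpleGraph V) (f : V → ℤ) : Set ℤ :=
  {s | ∃ u v, G.Adj u v ∧ f u + f v = s}

/-- The sum index: the least number of edge sums of an injective integer labelling. -/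
noncomputable def sumIndex {V : Type} (G : SimpleGraph V) : ℕ :=
  sInf {k | ∃ f : V → ℤ, Injective f ∧ (edgeSums G f).ncard = k}

/-- `g` is a sum labelling of `H`: injective, positive, and two distinct vertices are adjacent
exactly when the sum of their labels is a label. -/
def IsSumLabelling {W : Type} (H : SimpleGraph W) (g : W → ℤ) : Prop :=
  Injective g ∧ (∀ w, 0 < g w) ∧ ∀ x y, x ≠ y → (H.Adj x y ↔ ∃ w, g x + g y = g w)

/-- `G` together with `r` new isolated vertices has a sum labelling in which every edge sum of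
`G` is the label of one of the new vertices. -/
def HasExclusiveLabelling {V : Type} (G : SimpleGraph V) (r : ℕ) : Prop :=
  ∃ g : V ⊕ Fin r → ℤ, IsSumLabelling (G.sum (⊥ : SimpleGraph (Fin r))) g ∧
    ∀ u v, G.Adj u v → ∃ i : Fin r, g (Sum.inl u) + g (Sum.inl v) = g (Sum.inr i)

/-- The exclusive sum number. -/
noncomputable def exclusiveSumNumber {V : Type} (G : SimpleGraph V) : ℕ :=
  sInf {r | HasExclusiveLabelling G r}

/-- An integer labelling whose edge sums are never sums of non-edges gives an exclusive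
labelling after a translation. -/
lemma hasExclusiveLabelling_of {V : Type} [Fintype V] (G : SimpleGraph V) (a : V → ℤ)
    (ha : Injective a) (T : Finset ℤ) (hT : ∀ u v, u ≠ v → (G.Adj u v ↔ a u + a v ∈ T)) :
    HasExclusiveLabelling G T.card := by
  classical
  obtain ⟨B, hB1, hB2⟩ : ∃ B : ℤ, (∀ v, |a v| < B) ∧ ∀ t ∈ T, |t| < B := by
    obtain ⟨N, hN⟩ := ((Finset.univ.image a ∪ T).image fun d => |d|).bddAbove
    have key : ∀ t ∈ Finset.univ.image a ∪ T, |t| < N + 1 := fun t ht =>
      Int.lt_add_one_iff.2 (hN (Finset.mem_coe.2 (Finset.mem_image_of_mem _ ht)))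
    exact ⟨N + 1, fun v => key _ (Finset.mem_union_left _
      (Finset.mem_image_of_mem _ (Finset.mem_univ v))), fun t ht =>
      key _ (Finset.mem_union_right _ ht)⟩
  let e : Fin T.card → ℤ := fun i => (T.equivFin.symm i : ℤ)
  have he : ∀ i, |e i| < B := fun i => hB2 _ (T.equivFin.symm i).2
  have hei : Injective e := Subtype.val_injective.comp T.equivFin.symm.injective
  have hes : ∀ t ∈ T, ∃ i, e i = t := fun t ht => ⟨T.equivFin ⟨t, ht⟩, by simp [e]⟩
  have heT : ∀ i, e i ∈ T := fun i => (T.equivFin.symm i).2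
  simp only [abs_lt] at hB1 he
  refine ⟨Sum.elim (fun v => 3 * B + a v) (fun i => 6 * B + e i), ⟨?_, ?_, ?_⟩, ?_⟩
  · rintro (u | i) (v | j) h <;> simp only [Sum.elim_inl, Sum.elim_inr] at h
    · rw [ha (add_left_cancel h)]
    · linarith [hB1 u, he j]
    · linarith [hB1 v, he i]
    · rw [hei (add_left_cancel h)]
  · rintro (u | i) <;> simp only [Sum.elim_inl, Sum.elim_inr]
    · linarith [hB1 u]
    · linarith [he i]
  · rintro (u | i) (v | j) hne
    · rw [SimpleGraph.sum_adj_inl, hT u v fun h => hne (by rw [h])]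
      constructor
      · intro h
        obtain ⟨i, hi⟩ := hes _ h
        exact ⟨Sum.inr i, by simp only [Sum.elim_inl, Sum.elim_inr]; linarith⟩
      · rintro ⟨w | i, hw⟩ <;> simp only [Sum.elim_inl, Sum.elim_inr] at hw
        · linarith [hB1 u, hB1 v, hB1 w]
        · have : a u + a v = e i := by linarith
          rw [this]
          exact heT i
    · refine iff_of_false (by simp) ?_
      rintro ⟨w | k, hw⟩ <;> simp only [Sum.elim_inl, Sum.elim_inr] at hw
      · linarith [hB1 u, he j, hB1 w]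
      · linarith [hB1 u, he j, he k]
    · refine iff_of_false (by simp) ?_
      rintro ⟨w | k, hw⟩ <;> simp only [Sum.elim_inl, Sum.elim_inr] at hw
      · linarith [hB1 v, he i, hB1 w]
      · linarith [hB1 v, he i, he k]
    · refine iff_of_false (by simp) ?_
      rintro ⟨w | k, hw⟩ <;> simp only [Sum.elim_inl, Sum.elim_inr] at hw
      · linarith [he j, he i, hB1 w]
      · linarith [he j, he i, he k]
  · intro u v h
    obtain ⟨i, hi⟩ := hes _ ((hT u v h.ne).1 h)
    exact ⟨i, by simp only [Sum.elim_inl, Sum.elim_inr]; linarith⟩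

/-- The matching upper bound (not the hand-in). -/
lemma upper_bound (C : ℕ) (V : Type) [Fintype V] (G : SimpleGraph V) (hG : sumIndex G ≤ C) :
    ∃ r ≤ C * 2 ^ ((C + 1) / 2), HasExclusiveLabelling G r := by
  classical
  have hne : {k | ∃ f : V → ℤ, Injective f ∧ (edgeSums G f).ncard = k}.Nonempty := by
    obtain ⟨f, hf⟩ := exists_injective_nat V
    exact ⟨_, fun v => (f v : ℤ), Nat.cast_injective.comp hf, rfl⟩
  obtain ⟨f, hf, hk⟩ := Nat.sInf_mem hne
  have hfin : (edgeSums G f).Finite :=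
    (Set.finite_range fun q : V × V => f q.1 + f q.2).subset (by
      rintro _ ⟨u, v, _, rfl⟩
      exact ⟨(u, v), rfl⟩)
  have hc : hfin.toFinset.card ≤ C := by
    rw [← Set.ncard_eq_toFinset_card _ hfin]
    exact hk.trans_le hG
  obtain ⟨a, T, ha, hT, h⟩ := Pool.Agent.MP_091b59_co.Order.upper G f hf hfin.toFinset
    (fun u v huv => hfin.mem_toFinset.2 ⟨u, v, huv, rfl⟩) ((C + 1) / 2) (by omega)
  exact ⟨T.card, hT.trans (Nat.mul_le_mul_right _ hc), hasExclusiveLabelling_of G a ha T h⟩

/-- For `C ≥ 2` some finite graph with sum index at most `C` has exclusive sum number at least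
`C 2 ^ ⌊C / 2⌋ / 128`. -/
theorem result (C : ℕ) (hC : 2 ≤ C) :
    ∃ (V : Type) (_ : Fintype V) (G : SimpleGraph V), sumIndex G ≤ C ∧
      C * 2 ^ (C / 2) ≤ 128 * exclusiveSumNumber G := by
  classical
  obtain ⟨b, hb⟩ : ∃ b, C / 2 = b + 1 := ⟨C / 2 - 1, by omega⟩
  obtain ⟨V, inst, G, f, hf, hS, hlow⟩ := Pool.Agent.MP_091b59_co.Order.lower b
  have hG : sumIndex G ≤ C := by
    have h0 : sumIndex G ≤ (edgeSums G f).ncard := Nat.sInf_le ⟨f, hf, rfl⟩
    have h1 : edgeSums G f ⊆ (Finset.Icc (-(b : ℤ)) (b + 1) : Finset ℤ) := by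
      rintro _ ⟨u, v, huv, rfl⟩
      exact hS u v huv
    have h2 := Set.ncard_le_ncard h1 (Finset.finite_toSet _)
    rw [Set.ncard_coe_finset, Int.card_Icc] at h2
    omega
  refine ⟨V, inst, G, hG, ?_⟩
  obtain ⟨r, _, hr⟩ := upper_bound C V G hG
  obtain ⟨g, hg, hex⟩ : HasExclusiveLabelling G (exclusiveSumNumber G) :=
    Nat.sInf_mem (s := {r | HasExclusiveLabelling G r}) ⟨r, hr⟩
  have h1 := hlow (fun v => g (Sum.inl v)) (Finset.univ.image fun i => g (Sum.inr i)) (by
    intro u v huv
    constructor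
    · intro h
      obtain ⟨i, hi⟩ := hex u v h
      exact Finset.mem_image.2 ⟨i, Finset.mem_univ _, hi.symm⟩
    · intro h
      obtain ⟨i, _, hi⟩ := Finset.mem_image.1 h
      exact SimpleGraph.sum_adj_inl.1 ((hg.2.2 (Sum.inl u) (Sum.inl v)
        (fun e => huv (Sum.inl_injective e))).2 ⟨_, hi.symm⟩))
  have h2 : (Finset.univ.image fun i : Fin (exclusiveSumNumber G) => g (Sum.inr i)).card
      ≤ exclusiveSumNumber G := Finset.card_image_le.trans (by simp)
  have h3 : C * 2 ^ (b + 1) ≤ (2 * (b + 2)) * 2 ^ (b + 1) :=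
    Nat.mul_le_mul_right _ (by omega)
  rw [hb]
  calc C * 2 ^ (b + 1) ≤ (2 * (b + 2)) * 2 ^ (b + 1) := h3
    _ = 4 * ((b + 2) * 2 ^ b) := by ring
    _ ≤ 128 * exclusiveSumNumber G := by omega

end Pool.Agent.Results.MP_091b59_co.ExponentialLower
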